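import Mathlib
import Pool.Agent.Y920.EP.Stm

/-!
# Coarsening a valuation ring by a prime (adaptation of `Y67.ET.Coarse`)
-/

set_option autoImplicit false

namespace Pool.Agent.Y232.EP

open Pool.Agent.Y920.EP
open Pool.Agent.Y920.ETC (PCD Compat)

/-- the subring generated by `O` and `1 / p` -/
def inv {F : Type} [Field F] (p : ℕ) (O : ValuationSubring F) : Subring F where
  carrier := {x | ∃ n : ℕ, (p : F) ^ n * x ∈ O}
  mul_mem' := by
    rintro a b ⟨n, hn⟩ ⟨m, hm⟩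
    refine ⟨n + m, ?_⟩
    have e : (p : F) ^ (n + m) * (a * b) = (p : F) ^ n * a * ((p : F) ^ m * b) := by
      rw [pow_add]; ring
    rw [e]
    exact O.mul_mem _ _ hn hm
  one_mem' := ⟨0, by rw [pow_zero, one_mul]; exact O.one_mem⟩
  add_mem' := by
    rintro a b ⟨n, hn⟩ ⟨m, hm⟩
    refine ⟨n + m, ?_⟩
    have h2 : (p : F) ∈ O := natCast_mem O p
    have e : (p : F) ^ (n + m) * (a + b) =
        (p : F) ^ m * ((p : F) ^ n * a) + (p : F) ^ n * ((p : F) ^ m * b) := by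
      rw [pow_add]; ring
    rw [e]
    exact O.add_mem _ _ (O.mul_mem _ _ (pow_mem h2 m) hn) (O.mul_mem _ _ (pow_mem h2 n) hm)
  zero_mem' := ⟨0, by rw [mul_zero]; exact O.zero_mem⟩
  neg_mem' := by
    rintro a ⟨n, hn⟩
    refine ⟨n, ?_⟩
    rw [mul_neg]
    exact O.neg_mem _ hn

lemma lt_one {F : Type} [Field F] {O : ValuationSubring F} {x : F} (hx : x ≠ 0)
    (h : x⁻¹ ∉ O) : O.valuation x < 1 := by
  have h1 : ¬ O.valuation x⁻¹ ≤ 1 := fun h2 => h ((O.valuation_le_one_iff _).1 h2)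
  rw [not_le, map_inv₀] at h1
  have h2 : 0 < O.valuation x := zero_lt_iff.2 ((Valuation.ne_zero_iff _).2 hx)
  exact (one_lt_inv₀ h2).1 h1

lemma of_lt_one {F : Type} [Field F] {O : ValuationSubring F} {x : F} (hx : x ≠ 0)
    (h : O.valuation x < 1) : x⁻¹ ∉ O := by
  intro h1
  have h2 := (O.valuation_le_one_iff _).2 h1
  rw [map_inv₀] at h2
  have h3 : 0 < O.valuation x := zero_lt_iff.2 ((Valuation.ne_zero_iff _).2 hx)
  exact absurd ((one_lt_inv₀ h3).2 h) (not_lt.2 h2)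

/-- the claim on elements between `1` and `p` -/
lemma claim {F : Type} [Field F] {p : ℕ} (hp : p.Prime) (hp0 : (p : F) ≠ 0) {T H : Subgroup Fˣ}
    (hT : ∀ x : Fˣ, x ∈ T ↔ ∃ y : Fˣ, x = y ^ p) {O : ValuationSubring F} (hC : Compat T H O)
    (hO : (p : F)⁻¹ ∉ O) (w : Fˣ) (h3 : (w : F) ∈ O) (h4 : (w : F)⁻¹ ∉ O)
    (h5 : (p : F) / w ∈ O) : w ∈ T := by
  have hpos : 0 < p := hp.pos
  obtain ⟨v, hv⟩ : ∃ v, v = O.valuation := ⟨_, rfl⟩
  have hvO : ∀ x : F, x ∈ O ↔ v x ≤ 1 := fun x => by rw [hv, O.valuation_le_one_iff]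
  have hvp : v (p : F) < 1 := by rw [hv]; exact lt_one hp0 hO
  have hvw : v (w : F) < 1 := by rw [hv]; exact lt_one w.ne_zero h4
  have hvp0 : 0 < v (p : F) := zero_lt_iff.2 ((Valuation.ne_zero_iff _).2 hp0)
  have hvw0 : 0 < v (w : F) := zero_lt_iff.2 ((Valuation.ne_zero_iff _).2 w.ne_zero)
  have hvpw : v (p : F) ≤ v (w : F) := by
    have h6 := (hvO _).1 h5
    rw [map_div₀] at h6
    exact (div_le_one₀ hvw0).1 h6
  obtain ⟨s, hs, hs1⟩ := hC.one _ h3 h4
  obtain ⟨c, hc⟩ := (hT s).1 hs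
  have h6 : (c : F) ^ p = 1 + w := by rw [← hs1, hc, Units.val_pow_eq_pow_val]
  have hvc : v (c : F) ≤ 1 := by
    have h7 : v ((c : F) ^ p) ≤ 1 := by
      rw [h6]
      exact (hvO _).1 (O.add_mem _ _ O.one_mem h3)
    rw [map_pow] at h7
    exact (pow_le_one_iff_of_nonneg zero_le hpos.ne').1 h7
  obtain ⟨z, hz⟩ : ∃ z : F, z = c - 1 := ⟨_, rfl⟩
  have hzO : z ∈ O := by
    rw [hz]
    exact sub_mem ((hvO _).2 hvc) O.one_mem
  obtain ⟨u, hu⟩ := exists_add_pow_prime_eq hp (⟨z, hzO⟩ : O) 1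
  have hu' : (z + 1) ^ p = z ^ p + 1 + p * z * (u : F) := by
    have := congrArg (fun x : O => (x : F)) hu
    push_cast at this
    simpa using this
  have hwz : (w : F) = z ^ p + p * z * u := by
    have h7 : z + 1 = c := by rw [hz]; ring
    rw [h7, h6] at hu'
    linear_combination hu'
  have hvz : v z ≤ 1 := (hvO _).1 hzO
  have hvu : v (u : F) ≤ 1 := (hvO _).1 u.2
  have hvpzu : v ((p : F) * z * u) ≤ v (p : F) * v z := by
    rw [map_mul, map_mul]
    exact mul_le_of_le_one_right' hvu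
  have hvz1 : v z < 1 := by
    by_contra hcon
    have hvz' : v z = 1 := le_antisymm hvz (not_lt.1 hcon)
    have h7 : v (z ^ p) < 1 := by
      have h8 : z ^ p = w - p * z * u := by rw [hwz]; ring
      rw [h8]
      refine lt_of_le_of_lt (Valuation.map_sub _ _ _) (max_lt hvw ?_)
      refine lt_of_le_of_lt hvpzu ?_
      rw [hvz', mul_one]
      exact hvp
    rw [map_pow, hvz', one_pow] at h7
    exact lt_irrefl _ h7
  have hlt : v (p : F) < v (z ^ (p - 1)) := by
    by_contra hcon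
    rw [not_lt] at hcon
    have h7 : v (w : F) ≤ v (p : F) * v z := by
      rw [hwz]
      refine (Valuation.map_add _ _ _).trans (max_le ?_ hvpzu)
      have h8 : z ^ p = z ^ (p - 1) * z := by
        rw [← pow_succ, Nat.sub_add_cancel hpos]
      rw [h8, map_mul]
      exact mul_le_mul' hcon le_rfl
    have h9 : v (p : F) * v z < v (p : F) := mul_lt_of_lt_one_right hvp0 hvz1
    exact absurd (hvpw.trans h7) (not_le.2 h9)
  have hz0 : z ≠ 0 := by
    rintro rfl
    have hp1 : p - 1 ≠ 0 := by have := hp.two_le; omega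
    rw [zero_pow hp1, map_zero] at hlt
    exact not_lt_zero hlt
  have hzz : z ^ (p - 1) ≠ 0 := pow_ne_zero _ hz0
  obtain ⟨q, hq⟩ : ∃ q : F, q = p / z ^ (p - 1) := ⟨_, rfl⟩
  have hvq : v q < 1 := by
    rw [hq, map_div₀]
    exact (div_lt_one₀ (zero_lt_iff.2 ((Valuation.ne_zero_iff _).2 hzz))).2 hlt
  have hvqu : v (q * u) < 1 := by
    rw [map_mul]
    exact lt_of_le_of_lt (mul_le_of_le_one_right' hvu) hvq
  obtain ⟨t, ht, ht1⟩ : ∃ t ∈ T, (t : F) = 1 + q * u := by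
    by_cases h0 : q * (u : F) = 0
    · exact ⟨1, T.one_mem, by rw [h0, add_zero, Units.val_one]⟩
    · refine hC.one _ ((hvO _).2 hvqu.le) (of_lt_one h0 ?_)
      rw [← hv]
      exact hvqu
  obtain ⟨c', hc'⟩ := (hT t).1 ht
  rw [hT]
  refine ⟨Units.mk0 z hz0 * c', Units.ext ?_⟩
  have h8 : (c' : F) ^ p = 1 + q * u := by rw [← ht1, hc', Units.val_pow_eq_pow_val]
  rw [Units.val_pow_eq_pow_val, Units.val_mul, Units.val_mk0, mul_pow, h8, hwz, hq]
  have h9 : z ^ p = z ^ (p - 1) * z := by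
    rw [← pow_succ, Nat.sub_add_cancel hpos]
  rw [h9]
  field_simp

theorem t_COARSE' : S_COARSE' := by
  intro F _ p hp h2 T H hT hTH O hC
  by_cases hO : (p : F)⁻¹ ∈ O
  · exact ⟨O, le_rfl, hO, hC⟩
  have h2O : (p : F) ∈ O := natCast_mem O p
  have hle : O.toSubring ≤ inv p O := by
    intro x hx
    exact ⟨0, by rw [pow_zero, one_mul]; exact hx⟩
  have claim' : ∀ w : Fˣ, (w : F) ∈ O → (w : F)⁻¹ ∉ O → (p : F) / w ∈ O → w ∈ T :=
    fun w h3 h4 h5 => claim hp h2 hT hC hO w h3 h4 h5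
  have h2H : Units.mk0 (p : F) h2 ∈ H := by
    apply hTH
    apply claim'
    · exact h2O
    · exact hO
    · rw [Units.val_mk0, div_self h2]
      exact O.one_mem
  have main : ∀ n : ℕ, ∀ u : Fˣ, (u : F) ∈ O → (p : F) ^ n * (u : F)⁻¹ ∈ O → u ∈ H := by
    intro n
    induction n with
    | zero =>
      intro u hu hu'
      rw [pow_zero, one_mul] at hu'
      exact hC.units u hu (by rw [Units.val_inv_eq_inv_val]; exact hu')
    | succ n ih =>
      intro u hu hu'
      by_cases hu2 : (u : F) / p ∈ O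
      · have h3 := ih (u * (Units.mk0 (p : F) h2)⁻¹) (by
          rw [Units.val_mul, Units.val_inv_eq_inv_val, Units.val_mk0, ← div_eq_mul_inv]
          exact hu2) (by
          rw [Units.val_mul, Units.val_inv_eq_inv_val, Units.val_mk0]
          have hu0 := u.ne_zero
          have e : (p : F) ^ n * ((u : F) * (p : F)⁻¹)⁻¹ = (p : F) ^ (n + 1) * (u : F)⁻¹ := by
            rw [pow_succ]
            field_simp
          rw [e]
          exact hu')
        have h4 := H.mul_mem h3 h2H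
        rwa [inv_mul_cancel_right] at h4
      · have h3 : ((u : F) / p)⁻¹ ∈ O := (O.mem_or_inv_mem _).resolve_left hu2
        rw [inv_div] at h3
        by_cases hu3 : (u : F)⁻¹ ∈ O
        · exact hC.units u hu (by rw [Units.val_inv_eq_inv_val]; exact hu3)
        · exact hTH (claim' u hu hu3 h3)
  refine ⟨ValuationSubring.ofLE O (inv p O) hle, fun x hx => hle hx, ⟨1, ?_⟩, ⟨?_, ?_⟩⟩
  · rw [pow_one, mul_inv_cancel₀ h2]
    exact O.one_mem
  · intro u hu hu'
    obtain ⟨n, hn⟩ : ∃ n : ℕ, (p : F) ^ n * (u : F) ∈ O := hu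
    obtain ⟨m, hm⟩ : ∃ m : ℕ, (p : F) ^ m * ((u⁻¹ : Fˣ) : F) ∈ O := hu'
    rcases O.mem_or_inv_mem (u : F) with h3 | h3
    · exact main m u h3 (by rw [← Units.val_inv_eq_inv_val]; exact hm)
    · have h4 := main n u⁻¹ (by rw [Units.val_inv_eq_inv_val]; exact h3) (by
        rw [Units.val_inv_eq_inv_val, inv_inv]
        exact hn)
      have := H.inv_mem h4
      rwa [inv_inv] at this
  · intro x hx hx'
    have h3 : x⁻¹ ∉ O := fun h4 => hx' (hle h4)
    exact hC.one x ((O.mem_or_inv_mem x).resolve_right h3) h3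

end Pool.Agent.Y232.EP
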